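import Pool.Agent.H32.CH.Targets

/-!
# Module DC of the board ch_modules (MP_aaa807_co)
-/

set_option autoImplicit false

namespace Pool.Agent.H92.CH.DC

open Finset
open Pool.Agent.H32.CH

theorem pf_DC : T_DC := by
  intro V _ G A C x hC hx
  obtain ⟨hCA, -, hcl⟩ := hC
  unfold dg
  congr 1
  ext y
  rw [mem_nb, mem_nb]
  constructor
  · rintro ⟨h1, h2⟩
    exact ⟨hcl x hx y h1 h2, h2⟩
  · rintro ⟨h1, h2⟩
    exact ⟨hCA h1, h2⟩

end Pool.Agent.H92.CH.DC
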